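import Pool.Agent.Lib.MP_bae357_pr.Defs

/-!
# Clique lemma and chains in stable multi-matchings
-/

open Set Topology MeasureTheory ProbabilityTheory Filter

namespace StableMM.Light

/-- Willingness for points indexed by `V`. -/
def GWilling {d : ℕ} {V : Type*} (X : V → E d) (D : V → ℕ) (G : SimpleGraph V)
    (x y : V) : Prop :=
  (G.neighborSet x).encard < D x ∨ ∃ z, G.Adj x z ∧ dist (X x) (X y) < dist (X x) (X z)

/-- Stability for points indexed by `V`. -/
structure GStable {d : ℕ} {V : Type*} (X : V → E d) (D : V → ℕ) (G : SimpleGraph V) : Prop where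
  degree_le : ∀ x, (G.neighborSet x).encard ≤ D x
  stable : ∀ x y, x ≠ y → ¬ G.Adj x y → ¬ (GWilling X D G x y ∧ GWilling X D G y x)

lemma gstable_of {d : ℕ} {Pts : Set (E d)} {D : E d → ℕ} {G : SimpleGraph Pts}
    (h : IsStableMultiMatching Pts D G) :
    GStable (fun x : Pts => (x : E d)) (fun x : Pts => D x) G :=
  ⟨h.1, h.2⟩

variable {d : ℕ} {V : Type*} {X : V → E d} {D : V → ℕ} {G : SimpleGraph V}

/-- If two points are not adjacent, then all stubs of one of them are used at distance at most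
the distance of the two points. -/
lemma full_of_not_adj (h : GStable X D G) {x y : V} (hxy : x ≠ y)
    (hadj : ¬ G.Adj x y) :
    ∃ w, (w = x ∨ w = y) ∧
      (D w : ℕ∞) ≤ {z | G.Adj w z ∧ dist (X w) (X z) ≤ dist (X x) (X y)}.encard := by
  have key : ∀ a b, dist (X a) (X b) = dist (X x) (X y) → ¬ GWilling X D G a b →
      (D a : ℕ∞) ≤ {z | G.Adj a z ∧ dist (X a) (X z) ≤ dist (X x) (X y)}.encard := by
    intro a b hab hw
    simp only [GWilling, not_or, not_lt, not_exists, not_and] at hw
    refine hw.1.trans (encard_le_encard fun z hz => ?_)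
    exact ⟨hz, by rw [← hab]; exact hw.2 z hz⟩
  by_cases hx : GWilling X D G x y
  · have hy : ¬ GWilling X D G y x := fun hy => h.stable x y hxy hadj ⟨hx, hy⟩
    exact ⟨y, Or.inr rfl, key y x (dist_comm _ _) hy⟩
  · exact ⟨x, Or.inl rfl, key x y rfl hx⟩

/-- Neighbours of `w` which are closer to each other than to `w` form a clique, so there are at
most as many of them as their degrees allow. -/
lemma clique_card_le (h : GStable X D G) {w : V} {r : ℝ} {U : Finset V} {j : ℕ}
    (hadj : ∀ z ∈ U, G.Adj w z) (hr : ∀ z ∈ U, r ≤ dist (X z) (X w))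
    (hU : ∀ z ∈ U, ∀ z' ∈ U, dist (X z) (X z') < r) (hD : ∀ z ∈ U, D z ≤ j) : U.card ≤ j := by
  classical
  rcases U.eq_empty_or_nonempty with rfl | ⟨z, hz⟩
  · simp
  have hwU : w ∉ U := fun hw => G.loopless.irrefl w (hadj w hw)
  have hsub : ((insert w (U.erase z) : Finset V) : Set V) ⊆ G.neighborSet z := by
    intro u hu
    rw [Finset.mem_coe, Finset.mem_insert, Finset.mem_erase] at hu
    rcases hu with rfl | ⟨hne, hu⟩
    · exact (hadj z hz).symm
    · by_contra hcon
      refine h.stable z u hne.symm hcon ⟨Or.inr ⟨w, (hadj z hz).symm, ?_⟩,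
        Or.inr ⟨w, (hadj u hu).symm, ?_⟩⟩
      · exact (hU z hz u hu).trans_le (hr z hz)
      · exact (hU u hu z hz).trans_le (hr u hu)
  have h1 : ((insert w (U.erase z) : Finset V).card : ℕ∞) ≤ D z := by
    rw [← Set.encard_coe_eq_coe_finsetCard]
    exact (encard_le_encard hsub).trans (h.degree_le z)
  have h2 : (insert w (U.erase z) : Finset V).card = U.card := by
    rw [Finset.card_insert_of_notMem (fun hw => hwU (Finset.mem_of_mem_erase hw)),
      Finset.card_erase_of_mem hz]
    have : 0 < U.card := Finset.card_pos.2 ⟨z, hz⟩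
    omega
  rw [h2] at h1
  have h3 : U.card ≤ D z := by exact_mod_cast h1
  exact h3.trans (hD z hz)

/-- Two points in a common cell are close. -/
lemma dist_lt_of_coord (hd : 1 ≤ d) {r : ℝ} (hr : 0 < r) {a b : EuclideanSpace ℝ (Fin d)}
    (h : ∀ i, |a i - b i| < r / d) : dist a b < r := by
  have hd0 : (0 : ℝ) < d := by exact_mod_cast hd
  have hd1 : (1 : ℝ) ≤ d := by exact_mod_cast hd
  rw [EuclideanSpace.dist_eq]
  have hne : (Finset.univ : Finset (Fin d)).Nonempty := ⟨⟨0, hd⟩, Finset.mem_univ _⟩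
  have h1 : ∑ i, dist (a i) (b i) ^ 2 < ∑ _i : Fin d, (r / d) ^ 2 := by
    refine Finset.sum_lt_sum_of_nonempty hne fun i _ => ?_
    rw [Real.dist_eq]
    exact pow_lt_pow_left₀ (h i) (abs_nonneg _) two_ne_zero
  have h2 : ∑ _i : Fin d, (r / d) ^ 2 ≤ r ^ 2 := by
    rw [Finset.sum_const, Finset.card_univ, Fintype.card_fin, nsmul_eq_mul]
    have : (d : ℝ) * (r / d) ^ 2 = r ^ 2 / d := by field_simp
    rw [this]
    exact div_le_self (by positivity) hd1
  rw [Real.sqrt_lt' hr]
  linarith

/-- The number of neighbours of `w` at bounded distance. -/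
lemma neighbour_count (hd : 1 ≤ d) (h : GStable X D G) {w : V} {S : Finset V}
    {j M : ℕ} (hadj : ∀ z ∈ S, G.Adj w z) (hS : ∀ z ∈ S, dist (X z) (X w) < 2 ^ (M + 1)) :
    S.card ≤ j * ((M + 1) * (4 * d) ^ d) + (S.filter fun z => j < D z).card +
      (S.filter fun z => dist (X z) (X w) < 1).card := by
  classical
  set S' := S.filter fun z => ¬ j < D z ∧ ¬ dist (X z) (X w) < 1 with hS'
  have hsplit : S.card ≤ S'.card + (S.filter fun z => j < D z).card +
      (S.filter fun z => dist (X z) (X w) < 1).card := by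
    have : S ⊆ S' ∪ (S.filter fun z => j < D z) ∪ (S.filter fun z => dist (X z) (X w) < 1) := by
      intro z hz
      simp only [hS', Finset.mem_union, Finset.mem_filter]
      tauto
    refine (Finset.card_le_card this).trans ((Finset.card_union_le _ _).trans ?_)
    gcongr
    exact Finset.card_union_le _ _
  refine hsplit.trans ?_
  gcongr
  -- the classes
  have hd0 : (0 : ℝ) < d := by exact_mod_cast hd
  let lg : V → ℕ := fun z => Nat.log 2 ⌊dist (X z) (X w)⌋₊
  let κ : V → ℕ × (Fin d → ℤ) := fun z =>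
    (lg z, fun i => ⌊(X z i - X w i) * (d / 2 ^ (lg z))⌋)
  have hlg : ∀ z ∈ S', (2 : ℝ) ^ (lg z) ≤ dist (X z) (X w) ∧
      dist (X z) (X w) < 2 ^ (lg z + 1) := by
    intro z hz
    simp only [hS', Finset.mem_filter, not_lt] at hz
    have h1 : 1 ≤ ⌊dist (X z) (X w)⌋₊ := Nat.one_le_floor_iff _ |>.2 hz.2.2
    constructor
    · have h2 := Nat.pow_log_le_self 2 (by omega : ⌊dist (X z) (X w)⌋₊ ≠ 0)
      calc (2 : ℝ) ^ (lg z) = ((2 ^ (lg z) : ℕ) : ℝ) := by push_cast; rfl
        _ ≤ (⌊dist (X z) (X w)⌋₊ : ℝ) := by exact_mod_cast h2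
        _ ≤ dist (X z) (X w) := Nat.floor_le dist_nonneg
    · have h2 : ⌊dist (X z) (X w)⌋₊ < 2 ^ (lg z + 1) := Nat.lt_pow_succ_log_self (by norm_num) _
      have h3 : dist (X z) (X w) < ⌊dist (X z) (X w)⌋₊ + 1 := Nat.lt_floor_add_one _
      have h4 : ((⌊dist (X z) (X w)⌋₊ : ℝ)) + 1 ≤ 2 ^ (lg z + 1) := by exact_mod_cast h2
      linarith
  have hcoord : ∀ (a b : EuclideanSpace ℝ (Fin d)) (i : Fin d), |a i - b i| ≤ dist a b := by
    intro a b i
    rw [EuclideanSpace.dist_eq, ← Real.dist_eq]
    refine Real.le_sqrt_of_sq_le ?_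
    exact Finset.single_le_sum (f := fun i => dist (a i) (b i) ^ 2) (fun i _ => sq_nonneg _)
      (Finset.mem_univ i)
  have himage : S'.image κ ⊆ (Finset.range (M + 1)) ×ˢ
      (Fintype.piFinset fun _ : Fin d => Finset.Ico (-(2 * d : ℤ)) (2 * d : ℤ)) := by
    intro c hc
    rw [Finset.mem_image] at hc
    obtain ⟨z, hz, rfl⟩ := hc
    have h1 := hlg z hz
    rw [Finset.mem_product]
    constructor
    · rw [Finset.mem_range]
      have h2 : (2 : ℝ) ^ (lg z) < 2 ^ (M + 1) :=
        lt_of_le_of_lt h1.1 (hS z (Finset.mem_filter.1 hz).1)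
      exact (pow_lt_pow_iff_right₀ (by norm_num : (1 : ℝ) < 2)).1 h2
    · rw [Fintype.mem_piFinset]
      intro i
      have h2 := lt_of_le_of_lt (hcoord (X z) (X w) i) h1.2
      rw [abs_lt] at h2
      have hpow : (0 : ℝ) < 2 ^ (lg z) := by positivity
      have h3 : (0 : ℝ) < d / 2 ^ (lg z) := by positivity
      have h4 : (2 : ℝ) ^ (lg z + 1) * (d / 2 ^ (lg z)) = 2 * d := by
        rw [pow_succ]
        field_simp
      rw [Finset.mem_Ico]
      constructor
      · rw [Int.le_floor]
        push_cast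
        have := mul_lt_mul_of_pos_right h2.1 h3
        rw [neg_mul, h4] at this
        exact this.le
      · rw [Int.floor_lt]
        push_cast
        have := mul_lt_mul_of_pos_right h2.2 h3
        rw [h4] at this
        exact this
  have hcard : (S'.image κ).card ≤ (M + 1) * (4 * d) ^ d := by
    refine (Finset.card_le_card himage).trans ?_
    rw [Finset.card_product, Finset.card_range, Fintype.card_piFinset]
    simp only [Int.card_Ico, Finset.prod_const, Finset.card_univ, Fintype.card_fin]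
    have : ((2 * d : ℤ) - -(2 * d : ℤ)).toNat = 4 * d := by omega
    rw [this]
  have hfib : ∀ c ∈ S'.image κ, (S'.filter fun z => κ z = c).card ≤ j := by
    intro c hc
    refine clique_card_le h (w := w) (r := 2 ^ c.1) ?_ ?_ ?_ ?_
    · intro z hz
      exact hadj z (Finset.mem_filter.1 (Finset.mem_filter.1 hz).1).1
    · intro z hz
      obtain ⟨hz1, hz2⟩ := Finset.mem_filter.1 hz
      rw [← hz2]
      exact (hlg z hz1).1
    · intro z hz z' hz'
      obtain ⟨hz1, hz2⟩ := Finset.mem_filter.1 hz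
      obtain ⟨hz1', hz2'⟩ := Finset.mem_filter.1 hz'
      have e : κ z = κ z' := hz2.trans hz2'.symm
      have e1 : lg z = lg z' := congrArg Prod.fst e
      rw [← hz2]
      refine dist_lt_of_coord hd (by positivity) fun i => ?_
      have e2 : ⌊(X z i - X w i) * (d / 2 ^ (lg z))⌋ = ⌊(X z' i - X w i) * (d / 2 ^ (lg z))⌋ := by
        have := congrFun (congrArg Prod.snd e) i
        simp only [κ] at this
        rw [this, e1]
      have h3 := Int.abs_sub_lt_one_of_floor_eq_floor e2
      have hpow : (0 : ℝ) < 2 ^ (lg z) := by positivity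
      have h4 : (0 : ℝ) < d / 2 ^ (lg z) := by positivity
      have h5 : (X z i - X w i) * (d / 2 ^ (lg z)) - (X z' i - X w i) * (d / 2 ^ (lg z)) =
          (X z i - X z' i) * (d / 2 ^ (lg z)) := by ring
      rw [h5, abs_mul, abs_of_pos h4] at h3
      change |X z i - X z' i| < 2 ^ (lg z) / d
      rw [lt_div_iff₀ hd0]
      have h6 : |X z i - X z' i| * (d / 2 ^ (lg z)) = |X z i - X z' i| * d / 2 ^ (lg z) := by
        ring
      rw [h6, div_lt_one hpow] at h3
      exact h3
    · intro z hz
      exact not_lt.1 (Finset.mem_filter.1 (Finset.mem_filter.1 hz).1).2.1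
  calc S'.card ≤ j * (S'.image κ).card := Finset.card_le_mul_card_image S' j hfib
    _ ≤ j * ((M + 1) * (4 * d) ^ d) := by gcongr

/-- At a good scale two points of high degree are adjacent. -/
lemma adj_of_good (hd : 1 ≤ d) (h : GStable X D G) {n j κ K : ℕ}
    (hunit : ∀ x, ‖X x‖ < 2 ^ (n + 3) → {z | dist (X z) (X x) < 1}.encard ≤ j)
    (hhigh : {z | ‖X z‖ < 2 ^ (n + 3) ∧ j < D z}.encard ≤ κ)
    (hK : j * ((n + 2) * (4 * d) ^ d) + κ + j < K) {u v : V} (huv : u ≠ v)
    (hu : ‖X u‖ < 2 ^ n) (hv : ‖X v‖ < 2 ^ (n + 1)) (hDu : K ≤ D u) (hDv : K ≤ D v) :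
    G.Adj u v := by
  classical
  by_contra hcon
  obtain ⟨w, hw, hfull⟩ := full_of_not_adj h huv hcon
  have hpow : (0 : ℝ) < 2 ^ n := by positivity
  have hwnorm : ‖X w‖ < 2 ^ (n + 1) := by
    rcases hw with rfl | rfl
    · refine hu.trans ?_
      rw [pow_succ]
      linarith
    · exact hv
  have hwD : K ≤ D w := by rcases hw with rfl | rfl <;> assumption
  have hdist : dist (X u) (X v) < 3 * 2 ^ n := by
    have h1 := dist_le_norm_add_norm (X u) (X v)
    rw [pow_succ] at hv
    linarith
  set T := {z | G.Adj w z ∧ dist (X w) (X z) ≤ dist (X u) (X v)} with hT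
  have hKT : (K : ℕ∞) ≤ T.encard := le_trans (by exact_mod_cast hwD) hfull
  obtain ⟨S, hST, hScard⟩ := Set.exists_subset_encard_eq hKT
  have hSfin : S.Finite := Set.finite_of_encard_eq_coe hScard
  set S' := hSfin.toFinset with hS'
  have hS'card : S'.card = K := by
    have : (S'.card : ℕ∞) = K := by
      rw [← hScard, ← Set.encard_coe_eq_coe_finsetCard, hS', Set.Finite.coe_toFinset]
    exact_mod_cast this
  have hmem : ∀ z ∈ S', G.Adj w z ∧ dist (X z) (X w) < 3 * 2 ^ n := by
    intro z hz
    rw [hS', Set.Finite.mem_toFinset] at hz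
    obtain ⟨h1, h2⟩ := hST hz
    refine ⟨h1, ?_⟩
    rw [dist_comm]
    exact h2.trans_lt hdist
  have hcount := neighbour_count hd h (w := w) (S := S') (j := j) (M := n + 1)
    (fun z hz => (hmem z hz).1) (fun z hz => (hmem z hz).2.trans (by
      rw [pow_succ, pow_succ]
      linarith))
  have h1 : (S'.filter fun z => j < D z).card ≤ κ := by
    have : ((S'.filter fun z => j < D z).card : ℕ∞) ≤ κ := by
      rw [← Set.encard_coe_eq_coe_finsetCard]
      refine (encard_le_encard fun z hz => ?_).trans hhigh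
      rw [Finset.mem_coe, Finset.mem_filter] at hz
      refine ⟨?_, hz.2⟩
      have h2 := (hmem z hz.1).2
      have h3 : ‖X z‖ ≤ dist (X z) (X w) + ‖X w‖ := by
        rw [dist_eq_norm]
        have := norm_add_le (X z - X w) (X w)
        rwa [sub_add_cancel] at this
      have h4 : (2 : ℝ) ^ (n + 1) = 2 * 2 ^ n := by rw [pow_succ]; ring
      have h5 : (2 : ℝ) ^ (n + 3) = 8 * 2 ^ n := by rw [pow_add]; ring
      rw [h5]
      rw [h4] at hwnorm
      linarith
    exact_mod_cast this
  have h2 : (S'.filter fun z => dist (X z) (X w) < 1).card ≤ j := by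
    have : ((S'.filter fun z => dist (X z) (X w) < 1).card : ℕ∞) ≤ j := by
      rw [← Set.encard_coe_eq_coe_finsetCard]
      refine (encard_le_encard fun z hz => ?_).trans (hunit w (hwnorm.trans ?_))
      · rw [Finset.mem_coe, Finset.mem_filter] at hz
        exact hz.2
      · exact pow_lt_pow_right₀ (by norm_num) (by omega)
    exact_mod_cast this
  rw [hS'card] at hcount
  have h3 : j * ((n + 1 + 1) * (4 * d) ^ d) = j * ((n + 2) * (4 * d) ^ d) := rfl
  omega

/-- A chain of adjacent distinct vertices gives an infinite component. -/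
lemma infinite_of_chain {f : ℕ → V} (hf : Function.Injective f)
    (hadj : ∀ n, G.Adj (f n) (f (n + 1))) : ∃ c : G.ConnectedComponent, c.supp.Infinite := by
  refine ⟨G.connectedComponentMk (f 0), Set.infinite_of_injective_forall_mem hf fun n => ?_⟩
  rw [SimpleGraph.ConnectedComponent.mem_supp_iff, SimpleGraph.ConnectedComponent.eq]
  induction n with
  | zero => exact SimpleGraph.Reachable.refl _
  | succ n ih => exact (hadj n).symm.reachable.trans ih

/-- The scale at distance `2ⁿ` is good: there is a point of high degree in the annulus and few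
points crowd the ball. -/
structure GoodScale {d : ℕ} {V : Type*} (X : V → E d) (D : V → ℕ) (n j κ K : ℕ) : Prop where
  point : ∃ x, 2 ^ n ≤ 2 * ‖X x‖ ∧ ‖X x‖ < 2 ^ n ∧ K ≤ D x
  unit : ∀ x, ‖X x‖ < 2 ^ (n + 3) → {z | dist (X z) (X x) < 1}.encard ≤ j
  high : {z | ‖X z‖ < 2 ^ (n + 3) ∧ j < D z}.encard ≤ κ

/-- If all large scales are good, then every stable multi-matching has an infinite component. -/
lemma infinite_of_good (hd : 1 ≤ d) (h : GStable X D G) {j κ K : ℕ → ℕ}
    (hK : ∀ᶠ n in atTop, j n * ((n + 2) * (4 * d) ^ d) + κ n + j n < K n) (hmono : Monotone K)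
    (hgood : ∀ᶠ n in atTop, GoodScale X D n (j n) (κ n) (K n)) :
    ∃ c : G.ConnectedComponent, c.supp.Infinite := by
  obtain ⟨n0, hn0⟩ := eventually_atTop.1 (hK.and hgood)
  choose f hf using fun n => (hn0 (n0 + n) (by omega)).2.point
  have hinj : Function.Injective f := by
    have key : ∀ a b, a < b → f a ≠ f b := by
      intro a b hab hcon
      have h1 := (hf a).2.1
      have h2 := (hf b).1
      rw [hcon] at h1
      have h3 : (2 : ℝ) ^ (n0 + a + 1) ≤ 2 ^ (n0 + b) :=
        pow_le_pow_right₀ (by norm_num) (by omega)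
      rw [pow_succ] at h3
      linarith
    intro a b hab
    rcases lt_trichotomy a b with h1 | h1 | h1
    · exact absurd hab (key a b h1)
    · exact h1
    · exact absurd hab.symm (key b a h1)
  refine infinite_of_chain hinj fun n => ?_
  have h1 := hn0 (n0 + n) (by omega)
  refine adj_of_good hd h h1.2.unit h1.2.high h1.1 (hinj.ne (by omega)) (hf n).2.1 ?_
    (hf n).2.2 ?_
  · exact (hf (n + 1)).2.1
  · exact (hmono (by omega)).trans (hf (n + 1)).2.2

end StableMM.Light
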