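import Pool.Agent.Lib.MP_bae357_pr.Base
import Pool.Agent.Lib.MP_bae357_pr.Light.Clique

/-!
# All large scales are good
-/

open Set Topology MeasureTheory ProbabilityTheory Filter
open scoped NNReal ENNReal

namespace StableMM.Light

/-- Borel-Cantelli for quadratic bounds. -/
lemma bc {Ω : Type*} {mΩ : MeasurableSpace Ω} {P : Measure Ω} {B : ℕ → Set Ω}
    (h : ∀ᶠ n : ℕ in atTop, P (B n) ≤ ENNReal.ofReal (1 / (n : ℝ) ^ 2)) :
    ∀ᵐ ω ∂P, ∀ᶠ n in atTop, ω ∉ B n := by
  obtain ⟨n0, hn0⟩ := eventually_atTop.1 h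
  have hsum : (∑' n, P (B (n + (n0 + 1)))) ≠ ⊤ := by
    have hle : ∀ n : ℕ, P (B (n + (n0 + 1))) ≤ ENNReal.ofReal (1 / ((n + 1 : ℕ) : ℝ) ^ 2) := by
      intro n
      refine (hn0 (n + (n0 + 1)) (by omega)).trans (ENNReal.ofReal_le_ofReal ?_)
      have h1 : ((n + 1 : ℕ) : ℝ) ≤ ((n + (n0 + 1) : ℕ) : ℝ) := by
        have : n + 1 ≤ n + (n0 + 1) := by omega
        exact_mod_cast this
      apply one_div_le_one_div_of_le (by positivity)
      exact pow_le_pow_left₀ (by positivity) h1 2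
    refine ne_top_of_le_ne_top ?_ (ENNReal.tsum_le_tsum hle)
    have hs : Summable (fun k : ℕ => 1 / ((k + 1 : ℕ) : ℝ) ^ 2) :=
      (summable_nat_add_iff 1).2 (Real.summable_one_div_nat_pow.2 (by norm_num))
    rw [← ENNReal.ofReal_tsum_of_nonneg (fun k => by positivity) hs]
    exact ENNReal.ofReal_ne_top
  filter_upwards [ae_eventually_notMem hsum] with ω hω
  obtain ⟨a, ha⟩ := eventually_atTop.1 hω
  refine eventually_atTop.2 ⟨a + (n0 + 1), fun n hn => ?_⟩
  have h2 := ha (n - (n0 + 1)) (by omega)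
  have h3 : n - (n0 + 1) + (n0 + 1) = n := by omega
  rwa [h3] at h2

section Volume

variable {d : ℕ}

/-- The annulus. -/
def annulus (d n : ℕ) : Set (E d) := {x | 2 ^ n ≤ 2 * ‖x‖ ∧ ‖x‖ < 2 ^ n}

lemma measurableSet_annulus (d n : ℕ) : MeasurableSet (annulus d n) :=
  (measurableSet_le measurable_const (measurable_norm.const_mul 2)).inter
    (measurableSet_lt measurable_norm measurable_const)

lemma volume_ball_real {r : ℝ} (hr : 0 < r) :
    volume.real (Metric.ball (0 : E d) r) = r ^ d * vol1 d := by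
  unfold vol1 Measure.real
  rw [Measure.addHaar_ball_of_pos _ _ hr, ENNReal.toReal_mul, ENNReal.toReal_ofReal (by positivity),
    finrank_euclideanSpace, Fintype.card_fin]

lemma annulus_subset (d n : ℕ) : annulus d n ⊆ Metric.ball 0 (2 ^ n) := by
  intro x hx
  rw [mem_ball_zero_iff]
  exact hx.2

lemma volume_annulus (hd : 1 ≤ d) (n : ℕ) :
    vol1 d / 2 * 2 ^ (n * d) ≤ volume.real (annulus d n) := by
  have hpow : (0 : ℝ) < 2 ^ n := by positivity
  have h1 : Metric.ball (0 : E d) (2 ^ n) ⊆ annulus d n ∪ Metric.ball 0 (2 ^ n / 2) := by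
    intro x hx
    rw [mem_ball_zero_iff] at hx
    by_cases h : 2 ^ n ≤ 2 * ‖x‖
    · exact Or.inl ⟨h, hx⟩
    · right
      rw [mem_ball_zero_iff]
      linarith
  have h2 : volume.real (Metric.ball (0 : E d) (2 ^ n)) ≤
      volume.real (annulus d n) + volume.real (Metric.ball (0 : E d) (2 ^ n / 2)) := by
    refine (measureReal_mono h1 ?_).trans (measureReal_union_le _ _)
    refine ne_of_lt (measure_union_lt_top ?_ measure_ball_lt_top)
    exact lt_of_le_of_lt (measure_mono (annulus_subset d n)) measure_ball_lt_top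
  rw [volume_ball_real hpow, volume_ball_real (by positivity), div_pow] at h2
  have h3 : (2 : ℝ) ≤ 2 ^ d := by
    calc (2 : ℝ) = 2 ^ 1 := (pow_one 2).symm
      _ ≤ 2 ^ d := pow_le_pow_right₀ (by norm_num) hd
  have h4 : ((2 : ℝ) ^ n) ^ d / 2 ^ d ≤ ((2 : ℝ) ^ n) ^ d / 2 := by gcongr
  have h5 : (2 : ℝ) ^ (n * d) = ((2 : ℝ) ^ n) ^ d := by rw [← pow_mul]
  have hc := vol1_pos d
  rw [h5]
  nlinarith

end Volume

lemma mix_toMeasure_le (p : ℝ≥0∞) (hp : p ≤ 1) (ν : PMF ℕ) (S : Set ℕ) (hS : 1 ∉ S) :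
    (mix p hp ν).toMeasure S ≤ ν.toMeasure S := by
  rw [PMF.toMeasure_apply (hs := MeasurableSet.of_discrete),
    PMF.toMeasure_apply (hs := MeasurableSet.of_discrete)]
  refine ENNReal.tsum_le_tsum fun n => ?_
  by_cases hn : n ∈ S
  · rw [indicator_of_mem hn, indicator_of_mem hn, mix_apply]
    have h1 : n ≠ 1 := by
      rintro rfl
      exact hS hn
    rw [PMF.pure_apply, if_neg h1, mul_zero, zero_add]
    calc (1 - p) * ν n ≤ 1 * ν n := by
          gcongr
          exact tsub_le_self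
      _ = ν n := one_mul _
  · rw [indicator_of_notMem hn, indicator_of_notMem hn]

section Scales

variable {Ω : Type*} [MeasurableSpace Ω] {P : Measure Ω} {d : ℕ}
  {Pts : Ω → Set (E d)} {D : Ω → E d → ℕ} {μ : PMF ℕ}

lemma bounded_prod {A : Set (E d)} (hA : Bornology.IsBounded A) (I : Set ℕ) :
    Bornology.IsBounded (Prod.fst '' (A ×ˢ I)) :=
  hA.subset (by rintro _ ⟨⟨x, m⟩, hx, rfl⟩; exact hx.1)

/-- Almost surely every large annulus contains a point of high degree. -/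
lemma ae_point (hd : 1 ≤ d) {ν : PMF ℕ} {p : ℝ≥0∞} (hp : p < 1)
    (h : IsMarkedPoisson P Pts D (mix p hp.le ν)) {K : ℕ → ℕ}
    (hK : Tendsto (fun n : ℕ => 2 ^ (n * d) * tail ν (K n) / Real.log n) atTop atTop) :
    ∀ᵐ ω ∂P, ∀ᶠ n : ℕ in atTop, ∃ x ∈ Pts ω, x ∈ annulus d n ∧ K n ≤ D ω x := by
  have hq : 0 < (1 - p).toReal := by
    apply ENNReal.toReal_pos
    · exact (tsub_pos_of_lt hp).ne'
    · exact ne_top_of_le_ne_top ENNReal.one_ne_top tsub_le_self
  have hc := vol1_pos d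
  have hkey : ∀ᶠ n : ℕ in atTop,
      P {ω | markCount (Pts ω) (D ω) (annulus d n ×ˢ Ici (K n)) = 0} ≤
        ENNReal.ofReal (1 / (n : ℝ) ^ 2) := by
    filter_upwards [hK.eventually_ge_atTop (2 / (vol1 d / 2 * (1 - p).toReal)),
      eventually_ge_atTop 2] with n hn hn2
    have hbd : Bornology.IsBounded (annulus d n) :=
      Metric.isBounded_ball.subset (annulus_subset d n)
    rw [h.void _ ((measurableSet_annulus d n).prod measurableSet_Ici) (bounded_prod hbd _)]
    apply ENNReal.ofReal_le_ofReal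
    have hn2' : (2 : ℝ) ≤ n := by exact_mod_cast hn2
    have hlog : 0 < Real.log n := Real.log_pos (by linarith)
    rw [le_div_iff₀ hlog, div_mul_eq_mul_div, div_le_iff₀ (by positivity)] at hn
    have h1 : vol1 d / 2 * 2 ^ (n * d) * ((1 - p).toReal * tail ν (K n)) ≤
        (((volume : Measure (E d)).prod (mix p hp.le ν).toMeasure)
          (annulus d n ×ˢ Ici (K n))).toReal := by
      rw [Measure.prod_prod, ENNReal.toReal_mul]
      apply mul_le_mul (volume_annulus hd n) _ (by have := tail_nonneg ν (K n); positivity)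
        ENNReal.toReal_nonneg
      unfold tail
      rw [← ENNReal.toReal_mul]
      exact ENNReal.toReal_mono (measure_ne_top _ _) (mix_toMeasure_ge p hp.le ν _)
    have h2 : 2 * Real.log n ≤ vol1 d / 2 * 2 ^ (n * d) * ((1 - p).toReal * tail ν (K n)) := by
      calc 2 * Real.log n ≤ 2 ^ (n * d) * tail ν (K n) * (vol1 d / 2 * (1 - p).toReal) := hn
        _ = _ := by ring
    calc Real.exp (-(((volume : Measure (E d)).prod (mix p hp.le ν).toMeasure)
          (annulus d n ×ˢ Ici (K n))).toReal) ≤ Real.exp (-(2 * Real.log n)) := by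
          rw [Real.exp_le_exp]
          linarith
      _ = 1 / (n : ℝ) ^ 2 := by
          rw [Real.exp_neg, two_mul, Real.exp_add, Real.exp_log (by linarith), one_div, sq]
  filter_upwards [bc hkey] with ω hω
  filter_upwards [hω] with n hn
  have hn' : ¬ markCount (Pts ω) (D ω) (annulus d n ×ˢ Ici (K n)) = 0 := hn
  unfold markCount at hn'
  rw [encard_eq_zero, ← ne_eq, ← nonempty_iff_ne_empty] at hn'
  obtain ⟨x, hx1, hx2⟩ := hn'
  exact ⟨x, hx1, hx2.1, hx2.2⟩

lemma two_pow_ge {m : ℕ} {x : ℝ} (h : x ≤ m) : Real.exp (x / 2) ≤ 2 ^ m := by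
  have h1 : (2 : ℝ) ^ m = Real.exp (m * Real.log 2) := by
    rw [mul_comm, Real.exp_mul, Real.exp_log (by norm_num), Real.rpow_natCast]
  rw [h1, Real.exp_le_exp]
  have h2 : (0.69 : ℝ) < Real.log 2 := by have := Real.log_two_gt_d9; linarith
  have h3 : (0 : ℝ) ≤ m := by positivity
  nlinarith

/-- Almost surely large balls contain few points of high degree. -/
lemma ae_high {ν : PMF ℕ} {p : ℝ≥0∞} (hp : p < 1)
    (h : IsMarkedPoisson P Pts D (mix p hp.le ν)) {j K : ℕ → ℕ}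
    (hj : ∀ᶠ n in atTop, 1 ≤ j n)
    (hK : Tendsto (fun n : ℕ => (K n : ℝ) / Real.log n) atTop atTop)
    (hν : Tendsto (fun n : ℕ => (2 ^ (n * d) * tail ν (j n + 1)) / K n) atTop (𝓝 0)) :
    ∀ᵐ ω ∂P, ∀ᶠ n : ℕ in atTop,
      {x | x ∈ Pts ω ∧ ‖x‖ < 2 ^ (n + 3) ∧ j n < D ω x}.encard ≤ ((K n / 4 : ℕ) : ℕ∞) := by
  have hc := vol1_pos d
  have hkey : ∀ᶠ n : ℕ in atTop,
      P {ω | ((K n / 4 + 1 : ℕ) : ℕ∞) ≤
        markCount (Pts ω) (D ω) (Metric.ball 0 (2 ^ (n + 3)) ×ˢ Ioi (j n))} ≤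
        ENNReal.ofReal (1 / (n : ℝ) ^ 2) := by
    filter_upwards [hj, hK.eventually_ge_atTop 32,
      hν.eventually (ge_mem_nhds (by positivity : (0 : ℝ) < 1 / (16 * (8 ^ d * vol1 d)))),
      eventually_ge_atTop 2] with n hn1 hn2 hn3 hn4
    have hn4' : (2 : ℝ) ≤ n := by exact_mod_cast hn4
    have hlog : 0 < Real.log n := Real.log_pos (by linarith)
    rw [le_div_iff₀ hlog] at hn2
    have hK0 : (0 : ℝ) < K n := lt_of_lt_of_le (by positivity) hn2
    refine (h.tail _ (measurableSet_ball.prod measurableSet_Ioi)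
      (bounded_prod Metric.isBounded_ball _) _).trans ?_
    apply ENNReal.ofReal_le_ofReal
    have h1 : (((volume : Measure (E d)).prod (mix p hp.le ν).toMeasure)
        (Metric.ball (0 : E d) (2 ^ (n + 3)) ×ˢ Ioi (j n))).toReal ≤
        8 ^ d * vol1 d * (2 ^ (n * d) * tail ν (j n + 1)) := by
      rw [Measure.prod_prod, ENNReal.toReal_mul, ← tail_Ioi]
      have e1 : (volume (Metric.ball (0 : E d) (2 ^ (n + 3)))).toReal =
          8 ^ d * vol1 d * 2 ^ (n * d) := by
        have := volume_ball_real (d := d) (by positivity : (0 : ℝ) < 2 ^ (n + 3))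
        unfold Measure.real at this
        rw [this, pow_add, mul_pow, ← pow_mul]
        norm_num
        ring
      rw [e1, mul_assoc]
      have e2 : ((mix p hp.le ν).toMeasure (Ioi (j n))).toReal ≤
          (ν.toMeasure (Ioi (j n))).toReal := by
        refine ENNReal.toReal_mono (measure_ne_top _ _) (mix_toMeasure_le _ _ _ _ ?_)
        simp only [Set.mem_Ioi, not_lt]
        exact hn1
      have e3 : (0 : ℝ) ≤ 2 ^ (n * d) := by positivity
      have e4 : (0 : ℝ) ≤ 8 ^ d * vol1 d := by positivity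
      exact mul_le_mul_of_nonneg_left (mul_le_mul_of_nonneg_left e2 e3) e4
    have h2 : 8 ^ d * vol1 d * (2 ^ (n * d) * tail ν (j n + 1)) ≤ K n / 16 := by
      rw [div_le_div_iff₀ hK0 (by positivity)] at hn3
      linarith
    have h3 : ((K n : ℝ) / 4) ≤ ((K n / 4 + 1 : ℕ) : ℝ) := by
      have h4 : K n ≤ 4 * (K n / 4 + 1) := by omega
      have h5 : (K n : ℝ) ≤ 4 * ((K n / 4 + 1 : ℕ) : ℝ) := by exact_mod_cast h4
      linarith
    have h4 := two_pow_ge h3
    rw [div_le_iff₀ (by positivity)]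
    calc Real.exp (((volume : Measure (E d)).prod (mix p hp.le ν).toMeasure)
          (Metric.ball (0 : E d) (2 ^ (n + 3)) ×ˢ Ioi (j n))).toReal
        ≤ Real.exp (-(2 * Real.log n) + K n / 4 / 2) := by
          rw [Real.exp_le_exp]
          linarith
      _ = 1 / (n : ℝ) ^ 2 * Real.exp (K n / 4 / 2) := by
          rw [Real.exp_add, Real.exp_neg, two_mul, Real.exp_add, Real.exp_log (by linarith),
            one_div, sq]
      _ ≤ 1 / (n : ℝ) ^ 2 * 2 ^ (K n / 4 + 1) := by gcongr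
  filter_upwards [bc hkey] with ω hω
  filter_upwards [hω] with n hn
  have hn' : ¬ ((K n / 4 + 1 : ℕ) : ℕ∞) ≤
        markCount (Pts ω) (D ω) (Metric.ball 0 (2 ^ (n + 3)) ×ˢ Ioi (j n)) := hn
  rw [not_le] at hn'
  have e : markCount (Pts ω) (D ω) (Metric.ball 0 (2 ^ (n + 3)) ×ˢ Ioi (j n)) =
      {x | x ∈ Pts ω ∧ ‖x‖ < 2 ^ (n + 3) ∧ j n < D ω x}.encard := by
    unfold markCount
    congr 1
    ext x
    simp
  rw [e] at hn'
  push_cast at hn' ⊢
  exact Order.lt_add_one_iff_of_not_isMax (by simp [isMax_iff_eq_top]) |>.1 hn'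

/-- Points of the integer lattice. -/
def toPt (z : Fin d → ℤ) : E d := WithLp.toLp 2 fun i => (z i : ℝ)

/-- The integer parts of the coordinates. -/
noncomputable def floorVec (x : E d) : Fin d → ℤ := fun i => ⌊x i⌋

/-- Almost surely unit balls at distance `2ⁿ` are not crowded. -/
lemma ae_unit (hd : 1 ≤ d) (h : IsMarkedPoisson P Pts D μ) {j : ℕ → ℕ}
    (hj : Tendsto (fun n : ℕ => (j n : ℝ) / n) atTop atTop) :
    ∀ᵐ ω ∂P, ∀ᶠ n : ℕ in atTop, ∀ x : E d, ‖x‖ < 2 ^ (n + 3) →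
      {z | z ∈ Pts ω ∧ dist z x < 1}.encard ≤ (j n : ℕ∞) := by
  classical
  set v := volume.real (Metric.ball (0 : E d) (1 + d)) with hv
  -- one ball
  have hone : ∀ (z : Fin d → ℤ) (m : ℕ),
      P {ω | ((m + 1 : ℕ) : ℕ∞) ≤
        markCount (Pts ω) (D ω) (Metric.ball (toPt z) (1 + d) ×ˢ (univ : Set ℕ))} ≤
        ENNReal.ofReal (Real.exp v / 2 ^ (m + 1)) := by
    intro z m
    refine (h.tail _ (measurableSet_ball.prod MeasurableSet.univ)
      (bounded_prod Metric.isBounded_ball _) _).trans ?_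
    apply ENNReal.ofReal_le_ofReal
    rw [Measure.prod_prod, measure_univ, mul_one, Measure.addHaar_ball_center]
    rfl
  let I : ℕ → Finset (Fin d → ℤ) := fun n => Fintype.piFinset fun _ : Fin d =>
    Finset.Icc (-(2 ^ n : ℤ)) (2 ^ n : ℤ)
  have hcard : ∀ n, (((I n).card : ℕ) : ℝ) ≤ (2 ^ (n + 2)) ^ d := by
    intro n
    simp only [I]
    rw [Fintype.card_piFinset]
    simp only [Int.card_Icc, Finset.prod_const, Finset.card_univ, Fintype.card_fin]
    have h1 : ((2 ^ n : ℤ) + 1 - -(2 ^ n : ℤ)).toNat ≤ 2 ^ (n + 2) := by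
      have h2 : (1 : ℤ) ≤ 2 ^ n := one_le_pow₀ (by norm_num)
      have h3 : (2 ^ (n + 2) : ℤ) = 4 * 2 ^ n := by rw [pow_add]; ring
      have h4 : ((2 ^ n : ℤ) + 1 - -(2 ^ n : ℤ)) ≤ 2 ^ (n + 2) := by rw [h3]; linarith
      have h5 := Int.toNat_le_toNat h4
      refine h5.trans ?_
      have h6 : (2 ^ (n + 2) : ℤ) = ((2 ^ (n + 2) : ℕ) : ℤ) := by push_cast; rfl
      rw [h6, Int.toNat_natCast]
    exact_mod_cast Nat.pow_le_pow_left h1 d
  have hkey : ∀ᶠ n : ℕ in atTop,
      P (⋃ z ∈ I (n + 3), {ω | ((j n + 1 : ℕ) : ℕ∞) ≤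
        markCount (Pts ω) (D ω) (Metric.ball (toPt z) (1 + d) ×ˢ (univ : Set ℕ))}) ≤
        ENNReal.ofReal (1 / (n : ℝ) ^ 2) := by
    have hlim := tendsto_pow_const_div_const_pow_of_one_lt 2 (one_lt_two : (1 : ℝ) < 2)
    filter_upwards [hj.eventually_ge_atTop (d + 1), eventually_ge_atTop 1,
      hlim.eventually (ge_mem_nhds (by positivity : (0 : ℝ) < 1 / (32 ^ d * Real.exp v)))]
      with n hn1 hn2 hn3
    have hn2' : (0 : ℝ) < n := by exact_mod_cast hn2
    refine (measure_biUnion_finset_le _ _).trans ?_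
    refine (Finset.sum_le_sum fun z _ => hone z (j n)).trans ?_
    rw [Finset.sum_const, nsmul_eq_mul, ← ENNReal.ofReal_natCast,
      ← ENNReal.ofReal_mul (by positivity)]
    apply ENNReal.ofReal_le_ofReal
    rw [le_div_iff₀ hn2'] at hn1
    have hjn : n * (d + 1) ≤ j n := by
      have : ((n * (d + 1) : ℕ) : ℝ) ≤ j n := by
        push_cast
        linarith
      exact_mod_cast this
    have h2 : (2 : ℝ) ^ (n * d) * 2 ^ n ≤ 2 ^ (j n + 1) := by
      rw [← pow_add]
      exact pow_le_pow_right₀ (by norm_num) (by nlinarith)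
    have h3 : ((2 : ℝ) ^ (n + 3 + 2)) ^ d = 2 ^ (n * d) * 32 ^ d := by
      rw [add_assoc, pow_add, mul_pow, ← pow_mul]
      norm_num
    calc (((I (n + 3)).card : ℕ) : ℝ) * (Real.exp v / 2 ^ (j n + 1))
        ≤ (2 ^ (n + 3 + 2)) ^ d * (Real.exp v / (2 ^ (n * d) * 2 ^ n)) := by
          gcongr
          exact hcard (n + 3)
      _ = (32 ^ d * Real.exp v) / 2 ^ n := by
          rw [h3]
          field_simp
      _ ≤ 1 / (n : ℝ) ^ 2 := by
          rw [div_le_div_iff₀ (by positivity) (by positivity)] at hn3 ⊢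
          linarith
  filter_upwards [bc hkey] with ω hω
  filter_upwards [hω] with n hn x hx
  simp only [Set.mem_iUnion, exists_prop, not_exists, not_and] at hn
  have hcoord : ∀ i, |x i| ≤ ‖x‖ := by
    intro i
    rw [EuclideanSpace.norm_eq, ← Real.norm_eq_abs]
    refine Real.le_sqrt_of_sq_le ?_
    exact Finset.single_le_sum (f := fun i => ‖x i‖ ^ 2) (fun i _ => sq_nonneg _)
      (Finset.mem_univ i)
  have hmem : floorVec x ∈ I (n + 3) := by
    simp only [I]
    rw [Fintype.mem_piFinset]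
    intro i
    have h1 := (hcoord i).trans hx.le
    rw [abs_le] at h1
    rw [Finset.mem_Icc]
    constructor
    · rw [floorVec, Int.le_floor]
      push_cast
      exact h1.1
    · have h2 := Int.floor_le_floor h1.2
      have h3 : ⌊(2 : ℝ) ^ (n + 3)⌋ = (2 ^ (n + 3) : ℤ) := by
        have : (2 : ℝ) ^ (n + 3) = ((2 ^ (n + 3) : ℤ) : ℝ) := by push_cast; rfl
        rw [this, Int.floor_intCast]
      rw [h3] at h2
      exact h2
  have h1 : ¬ ((j n + 1 : ℕ) : ℕ∞) ≤ markCount (Pts ω) (D ω)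
      (Metric.ball (toPt (floorVec x)) (1 + d) ×ˢ (univ : Set ℕ)) := hn _ hmem
  rw [not_le, markCount_prod_univ] at h1
  have h2 : (Pts ω ∩ Metric.ball (toPt (floorVec x)) (1 + d)).encard ≤ (j n : ℕ∞) := by
    push_cast at h1
    exact Order.lt_add_one_iff_of_not_isMax (by simp [isMax_iff_eq_top]) |>.1 h1
  refine (encard_le_encard fun i hi => ?_).trans h2
  obtain ⟨hi1, hi2⟩ := hi
  refine ⟨hi1, ?_⟩
  have h1 : dist x (toPt (floorVec x)) < d := by
    refine dist_lt_of_coord hd (by exact_mod_cast hd) fun k => ?_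
    have hd0 : (d : ℝ) ≠ 0 := by
      have : d ≠ 0 := by omega
      exact_mod_cast this
    rw [div_self hd0]
    change |x k - (⌊x k⌋ : ℝ)| < 1
    rw [abs_of_nonneg (by linarith [Int.floor_le (x k)])]
    linarith [Int.lt_floor_add_one (x k)]
  rw [Metric.mem_ball]
  linarith [dist_triangle i x (toPt (floorVec x))]

/-- Percolation under the growth condition. -/
theorem ae_infinite (hd : 1 ≤ d) {ν : PMF ℕ} (hν : PercTail d ν) {p : ℝ≥0∞} (hp : p < 1)
    (h : IsMarkedPoisson P Pts D (mix p hp.le ν)) :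
    ∀ᵐ ω ∂P, ∀ G : SimpleGraph (Pts ω), IsStableMultiMatching (Pts ω) (D ω) G →
      ∃ c : G.ConnectedComponent, c.supp.Infinite := by
  obtain ⟨j, K, hmono, hj, hKj, hhigh, hpoint⟩ := hν
  have hj1 : ∀ᶠ n in atTop, 1 ≤ j n := by
    filter_upwards [hj.eventually_ge_atTop 1, eventually_ge_atTop 1] with n hn1 hn2
    have hn2' : (0 : ℝ) < n := by exact_mod_cast hn2
    rw [le_div_iff₀ hn2', one_mul] at hn1
    have : n ≤ j n := by exact_mod_cast hn1
    omega
  have hKlog : Tendsto (fun n : ℕ => (K n : ℝ) / Real.log n) atTop atTop := by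
    refine tendsto_atTop_mono' atTop ?_ hKj
    filter_upwards [hj1, eventually_ge_atTop 2] with n hn1 hn2
    have hn2' : (2 : ℝ) ≤ n := by exact_mod_cast hn2
    have hlog : 0 < Real.log n := Real.log_pos (by linarith)
    have hn1' : (1 : ℝ) ≤ j n := by exact_mod_cast hn1
    have h1 : Real.log n ≤ n * j n := by
      have := Real.log_le_self (by linarith : (0 : ℝ) ≤ n)
      nlinarith
    gcongr
  have hnum : ∀ᶠ n : ℕ in atTop, j n * ((n + 2) * (4 * d) ^ d) + K n / 4 + j n < K n := by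
    filter_upwards [hKj.eventually_ge_atTop (2 * (3 * (4 * d) ^ d + 1)), hj1,
      eventually_ge_atTop 1] with n hn1 hn2 hn3
    have hn3' : (1 : ℝ) ≤ n := by exact_mod_cast hn3
    have hn2' : (1 : ℝ) ≤ j n := by exact_mod_cast hn2
    have hpos : (0 : ℝ) < n * j n := by positivity
    rw [le_div_iff₀ hpos] at hn1
    have hC : (0 : ℝ) ≤ (4 * d) ^ d := by positivity
    have h1 : (j n : ℝ) * ((n + 2) * (4 * d) ^ d) + j n ≤ K n / 2 := by
      have h2 : ((n : ℝ) + 2) * (4 * d) ^ d + 1 ≤ n * (3 * (4 * d) ^ d + 1) := by nlinarith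
      calc (j n : ℝ) * ((n + 2) * (4 * d) ^ d) + j n = j n * ((n + 2) * (4 * d) ^ d + 1) := by
            ring
        _ ≤ j n * (n * (3 * (4 * d) ^ d + 1)) := by gcongr
        _ ≤ K n / 2 := by nlinarith
    have hK4 : ((K n / 4 : ℕ) : ℝ) ≤ (K n : ℝ) / 4 := Nat.cast_div_le
    have hK0 : (0 : ℝ) < K n := by
      have : 0 < 2 * (3 * (4 * d) ^ d + 1) * ((n : ℝ) * j n) := by positivity
      linarith
    have h4 : ((j n * ((n + 2) * (4 * d) ^ d) + K n / 4 + j n : ℕ) : ℝ) < (K n : ℝ) := by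
      push_cast
      linarith
    exact_mod_cast h4
  filter_upwards [ae_point hd hp h hpoint, ae_high hp h hj1 hKlog hhigh, ae_unit hd h hj]
    with ω h1 h2 h3 G hG
  refine infinite_of_good hd (gstable_of hG) (j := j) (κ := fun n => K n / 4) (K := K) hnum
    hmono ?_
  filter_upwards [h1, h2, h3] with n hn1 hn2 hn3
  refine ⟨?_, ?_, ?_⟩
  · obtain ⟨x, hx, hx1, hx2⟩ := hn1
    exact ⟨⟨x, hx⟩, hx1.1, hx1.2, hx2⟩
  · intro x hx
    refine le_trans ?_ (hn3 (x : E d) hx)
    have e : {z : Pts ω | dist (z : E d) (x : E d) < 1}.encard =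
        (Subtype.val '' {z : Pts ω | dist (z : E d) (x : E d) < 1}).encard :=
      (Subtype.val_injective.encard_image _).symm
    rw [e]
    refine encard_le_encard ?_
    rintro _ ⟨z, hz, rfl⟩
    exact ⟨z.2, hz⟩
  · refine le_trans ?_ hn2
    have e : {z : Pts ω | ‖(z : E d)‖ < 2 ^ (n + 3) ∧ j n < D ω z}.encard =
        (Subtype.val '' {z : Pts ω | ‖(z : E d)‖ < 2 ^ (n + 3) ∧ j n < D ω z}).encard :=
      (Subtype.val_injective.encard_image _).symm
    rw [e]
    refine encard_le_encard ?_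
    rintro _ ⟨z, hz, rfl⟩
    exact ⟨z.2, hz⟩

end Scales

end StableMM.Light
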