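import Pool.Agent.Lib.MP_bae357_pr.Base

/-!
# Laws which satisfy the growth condition
-/

open Set Topology MeasureTheory ProbabilityTheory Filter
open scoped NNReal ENNReal

namespace StableMM.Light

lemma tail_le_one (ν : PMF ℕ) (k : ℕ) : tail ν k ≤ 1 := by
  unfold tail
  have h1 : ν.toMeasure (Ici k) ≤ 1 := prob_le_one
  calc (ν.toMeasure (Ici k)).toReal ≤ (1 : ℝ≥0∞).toReal := ENNReal.toReal_mono (by simp) h1
    _ = 1 := by simp

lemma tail_antitone (ν : PMF ℕ) : Antitone (tail ν) := by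
  intro a b hab
  exact ENNReal.toReal_mono (measure_ne_top _ _) (measure_mono (Ici_subset_Ici.2 hab))

lemma tendsto_tail (ν : PMF ℕ) : Tendsto (tail ν) atTop (𝓝 0) := by
  have h1 : Tendsto (fun k : ℕ => ν.toMeasure (Ici k)) atTop (𝓝 (ν.toMeasure (⋂ k : ℕ, Ici k))) := by
    refine tendsto_measure_iInter_atTop (fun k => measurableSet_Ici.nullMeasurableSet) ?_ ?_
    · intro a b hab
      exact Ici_subset_Ici.2 hab
    · exact ⟨0, measure_ne_top _ _⟩
  have h2 : (⋂ k : ℕ, Ici k : Set ℕ) = ∅ := by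
    ext m
    simp only [Set.mem_iInter, Set.mem_Ici, Set.mem_empty_iff_false, iff_false, not_forall, not_le]
    exact ⟨m + 1, by omega⟩
  rw [h2, measure_empty] at h1
  have h3 := (ENNReal.tendsto_toReal (by simp : (0 : ℝ≥0∞) ≠ ⊤)).comp h1
  rw [ENNReal.toReal_zero] at h3
  exact h3

/-- Very heavy tails satisfy the growth condition. -/
lemma percTail_of_heavyTail {d : ℕ} (hd : 1 ≤ d) {ν : PMF ℕ} (hν : HeavyTail ν) :
    PercTail d ν := by
  have htop : Tendsto (fun n : ℕ => 2 ^ (n * d)) atTop (atTop : Filter ℕ) := by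
    refine tendsto_atTop_mono (fun n => ?_) tendsto_id
    calc n ≤ 2 ^ n := Nat.lt_two_pow_self.le
      _ ≤ 2 ^ (n * d) := Nat.pow_le_pow_right (by norm_num) (Nat.le_mul_of_pos_right n hd)
  refine ⟨fun n => n ^ 2, fun n => 2 ^ (n * d), ?_, ?_, ?_, ?_, ?_⟩
  · intro a b hab
    exact Nat.pow_le_pow_right (by norm_num) (Nat.mul_le_mul_right d hab)
  · refine tendsto_atTop_mono' atTop ?_ tendsto_natCast_atTop_atTop
    filter_upwards [eventually_ge_atTop 1] with n hn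
    have hn' : (0 : ℝ) < n := by exact_mod_cast hn
    push_cast
    rw [le_div_iff₀ hn', sq]
  · have h1 : Tendsto (fun n : ℕ => (n : ℝ) ^ 3 / 2 ^ n) atTop (𝓝 0) :=
      tendsto_pow_const_div_const_pow_of_one_lt 3 one_lt_two
    have h2 : Tendsto (fun n : ℕ => ((n : ℝ) ^ 3 / 2 ^ n)⁻¹) atTop atTop := by
      refine Tendsto.inv_tendsto_nhdsGT_zero ?_
      rw [tendsto_nhdsWithin_iff]
      refine ⟨h1, ?_⟩
      filter_upwards [eventually_ge_atTop 1] with n hn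
      have hn' : (0 : ℝ) < n := by exact_mod_cast hn
      exact Set.mem_Ioi.2 (by positivity)
    refine tendsto_atTop_mono' atTop ?_ h2
    filter_upwards [eventually_ge_atTop 1] with n hn
    have hn' : (0 : ℝ) < n := by exact_mod_cast hn
    push_cast
    rw [inv_div]
    have h3 : (2 : ℝ) ^ n ≤ 2 ^ (n * d) :=
      pow_le_pow_right₀ (by norm_num) (Nat.le_mul_of_pos_right n hd)
    calc (2 : ℝ) ^ n / (n : ℝ) ^ 3 ≤ 2 ^ (n * d) / (n : ℝ) ^ 3 := by gcongr
      _ = 2 ^ (n * d) / (n * (n : ℝ) ^ 2) := by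
          congr 1
          ring
  · have h1 : Tendsto (fun n : ℕ => tail ν (n ^ 2 + 1)) atTop (𝓝 0) := by
      refine (tendsto_tail ν).comp ?_
      refine tendsto_atTop_mono (fun n => ?_) tendsto_id
      simp only [id]
      nlinarith
    refine h1.congr fun n => ?_
    push_cast
    rw [mul_div_assoc, mul_comm, div_mul_cancel₀ _ (by positivity)]
  · have h1 := (hν.comp htop).const_mul_atTop (by norm_num : (0 : ℝ) < 1 / 2)
    refine tendsto_atTop_mono' atTop ?_ h1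
    filter_upwards [eventually_ge_atTop 3] with n hn
    have hn' : (3 : ℝ) ≤ n := by exact_mod_cast hn
    have hd' : (1 : ℝ) ≤ d := by exact_mod_cast hd
    have hlog : 0 < Real.log n := Real.log_pos (by linarith)
    simp only [Function.comp]
    push_cast
    have h2 : Real.log n / 2 ≤ Real.log (Real.log (2 ^ (n * d))) := by
      rw [← Real.log_sqrt (by positivity)]
      refine Real.log_le_log (Real.sqrt_pos.2 (by positivity)) ?_
      rw [Real.log_pow]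
      push_cast
      have h5 : (0.69 : ℝ) < Real.log 2 := by have := Real.log_two_gt_d9; linarith
      have h6 : Real.sqrt n ≤ n * 0.69 := by
        rw [Real.sqrt_le_left (by positivity)]
        nlinarith
      calc Real.sqrt n ≤ n * 0.69 := h6
        _ ≤ n * d * 0.69 := by nlinarith
        _ ≤ n * d * Real.log 2 := by gcongr
    have h3 : 0 ≤ (2 : ℝ) ^ (n * d) * tail ν (2 ^ (n * d)) := by
      have := tail_nonneg ν (2 ^ (n * d))
      positivity
    calc 1 / 2 * ((2 : ℝ) ^ (n * d) * (ν.toMeasure (Ici (2 ^ (n * d)))).toReal /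
          Real.log (Real.log (2 ^ (n * d))))
        ≤ 1 / 2 * ((2 : ℝ) ^ (n * d) * (ν.toMeasure (Ici (2 ^ (n * d)))).toReal /
          (Real.log n / 2)) := by
          have h4 : (2 : ℝ) ^ (n * d) * (ν.toMeasure (Ici (2 ^ (n * d)))).toReal /
            Real.log (Real.log (2 ^ (n * d))) ≤ (2 : ℝ) ^ (n * d) *
            (ν.toMeasure (Ici (2 ^ (n * d)))).toReal / (Real.log n / 2) :=
            div_le_div_of_nonneg_left h3 (by positivity) h2
          linarith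
      _ = (2 : ℝ) ^ (n * d) * tail ν (2 ^ (n * d)) / Real.log n := by
          unfold tail
          field_simp

/-- `ν` has tail index `α`: `ν([k, ∞)) = k^(-α + o(1))`. -/
def HasTailIndex (ν : PMF ℕ) (α : ℝ) : Prop :=
  ∀ ε > 0, ∀ᶠ k : ℕ in atTop, (k : ℝ) ^ (-α - ε) ≤ tail ν k ∧ tail ν k ≤ (k : ℝ) ^ (-α + ε)

/-- `(u ^ n) ^ e = (u ^ e) ^ n`. -/
lemma pow_rpow {u : ℝ} (hu : 0 ≤ u) (n : ℕ) (e : ℝ) : (u ^ n) ^ e = (u ^ e) ^ n := by
  rw [← Real.rpow_natCast, ← Real.rpow_mul hu, ← Real.rpow_natCast, ← Real.rpow_mul hu,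
    mul_comm]

lemma rpow_le_of_le_two_mul {x y e : ℝ} (hx : 0 < x) (h1 : x ≤ y) (h2 : y ≤ 2 * x) :
    y ^ e ≤ 2 ^ |e| * x ^ e := by
  rcases le_total 0 e with he | he
  · calc y ^ e ≤ (2 * x) ^ e := Real.rpow_le_rpow (by linarith) h2 he
      _ = 2 ^ |e| * x ^ e := by rw [Real.mul_rpow (by norm_num) hx.le, abs_of_nonneg he]
  · calc y ^ e ≤ x ^ e := Real.rpow_le_rpow_of_nonpos hx h1 he
      _ = 1 * x ^ e := (one_mul _).symm
      _ ≤ 2 ^ |e| * x ^ e := by
        gcongr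
        exact Real.one_le_rpow (by norm_num) (abs_nonneg _)

lemma tendsto_pow_div {r : ℝ} (hr : 1 < r) : Tendsto (fun n : ℕ => r ^ n / (n : ℝ)) atTop atTop := by
  have h1 : Tendsto (fun n : ℕ => (n : ℝ) ^ 1 / r ^ n) atTop (𝓝 0) :=
    tendsto_pow_const_div_const_pow_of_one_lt 1 hr
  have h2 : Tendsto (fun n : ℕ => ((n : ℝ) ^ 1 / r ^ n)⁻¹) atTop atTop := by
    refine Tendsto.inv_tendsto_nhdsGT_zero ?_
    rw [tendsto_nhdsWithin_iff]
    refine ⟨h1, ?_⟩
    filter_upwards [eventually_ge_atTop 1] with n hn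
    have hn' : (0 : ℝ) < n := by exact_mod_cast hn
    have : 0 < r := by linarith
    exact Set.mem_Ioi.2 (by positivity)
  refine h2.congr fun n => ?_
  rw [inv_div, pow_one]

/-- Tails with an index satisfy the growth condition. -/
lemma percTail_of_index {d : ℕ} (hd : 1 ≤ d) {ν : PMF ℕ} {α : ℝ} (hα : 0 ≤ α)
    (hν : HasTailIndex ν α) : PercTail d ν := by
  have hd0 : (0 : ℝ) < d := by exact_mod_cast hd
  set b : ℝ := d / (α + 1 / 2) with hb
  have hb0 : 0 < b := by positivity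
  set t : ℝ := 1 / (4 * (α + 1)) with ht
  have ht0 : 0 < t := by positivity
  have ht1 : t ≤ 1 / 4 := by
    rw [ht]
    refine one_div_le_one_div_of_le (by norm_num) ?_
    linarith
  have hαt : α * t ≤ 1 / 4 := by
    rw [ht, mul_one_div, div_le_iff₀ (by positivity)]
    linarith
  set a : ℝ := b * (1 - t) with ha
  have ha0 : 0 < a := by
    have : 0 < 1 - t := by linarith
    positivity
  have hab : a < b := by
    rw [ha]
    nlinarith
  have hbd : b * (α + 1 / 2) = d := by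
    rw [hb]
    field_simp
  set u : ℝ := 2 ^ b with hu
  set w : ℝ := 2 ^ a with hw
  have hu1 : 1 < u := Real.one_lt_rpow one_lt_two hb0
  have hw1 : 1 < w := Real.one_lt_rpow one_lt_two ha0
  have hu0 : 0 < u := by linarith
  have hw0 : 0 < w := by linarith
  have hwu : w < u := Real.rpow_lt_rpow_of_exponent_lt one_lt_two hab
  have h2d : (2 : ℝ) ^ d = 2 ^ (d : ℝ) := (Real.rpow_natCast 2 d).symm
  -- tails
  have htail := hν (1 / 8) (by norm_num)
  have hlow : ∀ᶠ k : ℕ in atTop, (k : ℝ) ^ (-(α + 1 / 8)) ≤ tail ν k := by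
    filter_upwards [htail] with k hk
    have e : -(α + 1 / 8) = -α - 1 / 8 := by ring
    rw [e]
    exact hk.1
  have hupp : ∀ᶠ k : ℕ in atTop, tail ν k ≤ (k : ℝ) ^ (-α + 1 / 8) := by
    filter_upwards [htail] with k hk
    exact hk.2
  have hrate1 : 1 < 2 ^ d * u ^ (-(α + 1 / 8)) := by
    rw [h2d, hu, ← Real.rpow_mul two_pos.le, ← Real.rpow_add two_pos]
    refine Real.one_lt_rpow one_lt_two ?_
    have : (d : ℝ) + b * -(α + 1 / 8) = b * (3 / 8) := by rw [← hbd]; ring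
    rw [this]
    positivity
  have hrate2 : 2 ^ d * w ^ (-α + 1 / 8) / u < 1 := by
    rw [h2d, hu, hw, ← Real.rpow_mul two_pos.le, ← Real.rpow_add two_pos,
      ← Real.rpow_sub two_pos]
    refine Real.rpow_lt_one_of_one_lt_of_neg one_lt_two ?_
    have e : (d : ℝ) + a * (-α + 1 / 8) - b = b * (α * t + 1 / 8 * (1 - t) - 1 / 2) := by
      rw [← hbd, ha]
      ring
    rw [e]
    have : α * t + 1 / 8 * (1 - t) - 1 / 2 < 0 := by linarith
    exact mul_neg_of_pos_of_neg hb0 this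
  have hutop : Tendsto (fun n : ℕ => u ^ n) atTop atTop := tendsto_pow_atTop_atTop_of_one_lt hu1
  have hwtop : Tendsto (fun n : ℕ => w ^ n) atTop atTop := tendsto_pow_atTop_atTop_of_one_lt hw1
  have hKtop : Tendsto (fun n : ℕ => ⌈u ^ n⌉₊) atTop atTop := tendsto_nat_ceil_atTop.comp hutop
  have hjtop : Tendsto (fun n : ℕ => ⌊w ^ n⌋₊ + 1) atTop atTop :=
    tendsto_atTop_mono (fun n => Nat.le_succ _) (tendsto_nat_floor_atTop.comp hwtop)
  refine ⟨fun n => ⌊w ^ n⌋₊, fun n => ⌈u ^ n⌉₊, ?_, ?_, ?_, ?_, ?_⟩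
  · intro m n hmn
    exact Nat.ceil_mono (pow_le_pow_right₀ hu1.le hmn)
  · have h1 := (tendsto_pow_div hw1).atTop_add (tendsto_const_nhds (x := (-1 : ℝ)))
    refine tendsto_atTop_mono' atTop ?_ h1
    filter_upwards [eventually_ge_atTop 1] with n hn
    have hn' : (1 : ℝ) ≤ n := by exact_mod_cast hn
    have h2 : w ^ n < (⌊w ^ n⌋₊ : ℝ) + 1 := Nat.lt_floor_add_one _
    rw [le_div_iff₀ (by linarith), add_mul, div_mul_cancel₀ _ (by linarith)]
    linarith
  · have h1 := tendsto_pow_div (by rw [one_lt_div hw0]; exact hwu : 1 < u / w)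
    refine tendsto_atTop_mono' atTop ?_ h1
    filter_upwards [eventually_ge_atTop 1] with n hn
    have hn' : (1 : ℝ) ≤ n := by exact_mod_cast hn
    have hwn : 1 ≤ w ^ n := one_le_pow₀ hw1.le
    have h2 : (⌊w ^ n⌋₊ : ℝ) ≤ w ^ n := Nat.floor_le (by positivity)
    have h3 : u ^ n ≤ (⌈u ^ n⌉₊ : ℝ) := Nat.le_ceil _
    have h4 : (1 : ℝ) ≤ (⌊w ^ n⌋₊ : ℝ) := by
      have : 1 ≤ ⌊w ^ n⌋₊ := Nat.one_le_floor_iff _ |>.2 hwn
      exact_mod_cast this
    rw [div_pow, div_div]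
    calc u ^ n / (w ^ n * n) ≤ (⌈u ^ n⌉₊ : ℝ) / (w ^ n * n) := by gcongr
      _ ≤ (⌈u ^ n⌉₊ : ℝ) / (n * (⌊w ^ n⌋₊ : ℝ)) := by
          apply div_le_div_of_nonneg_left (by positivity) (by positivity)
          nlinarith
  · have h1 : Tendsto (fun n : ℕ => 2 ^ |(-α + 1 / 8)| * (2 ^ d * w ^ (-α + 1 / 8) / u) ^ n)
        atTop (𝓝 0) := by
      have := (tendsto_pow_atTop_nhds_zero_of_lt_one (by positivity) hrate2).const_mul
        (2 ^ |(-α + 1 / 8)|)
      rwa [mul_zero] at this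
    refine squeeze_zero' (Eventually.of_forall fun n => ?_) ?_ h1
    · have := tail_nonneg ν (⌊w ^ n⌋₊ + 1)
      positivity
    · filter_upwards [hjtop.eventually hupp] with n hn1
      have hwn : 1 ≤ w ^ n := one_le_pow₀ hw1.le
      have hj1 : w ^ n ≤ ((⌊w ^ n⌋₊ + 1 : ℕ) : ℝ) := by
        push_cast
        exact (Nat.lt_floor_add_one _).le
      have hj2 : ((⌊w ^ n⌋₊ + 1 : ℕ) : ℝ) ≤ 2 * w ^ n := by
        push_cast
        have : (⌊w ^ n⌋₊ : ℝ) ≤ w ^ n := Nat.floor_le (by positivity)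
        linarith
      have h2 : tail ν (⌊w ^ n⌋₊ + 1) ≤ 2 ^ |(-α + 1 / 8)| * (w ^ (-α + 1 / 8)) ^ n := by
        calc tail ν (⌊w ^ n⌋₊ + 1) ≤ ((⌊w ^ n⌋₊ + 1 : ℕ) : ℝ) ^ (-α + 1 / 8) := hn1
          _ ≤ 2 ^ |(-α + 1 / 8)| * (w ^ n) ^ (-α + 1 / 8) :=
              rpow_le_of_le_two_mul (by positivity) hj1 hj2
          _ = _ := by rw [pow_rpow hw0.le]
      have h3 : u ^ n ≤ (⌈u ^ n⌉₊ : ℝ) := Nat.le_ceil _
      have h4 := tail_nonneg ν (⌊w ^ n⌋₊ + 1)
      calc 2 ^ (n * d) * tail ν (⌊w ^ n⌋₊ + 1) / (⌈u ^ n⌉₊ : ℝ)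
          ≤ 2 ^ (n * d) * (2 ^ |(-α + 1 / 8)| * (w ^ (-α + 1 / 8)) ^ n) / u ^ n := by gcongr
        _ = 2 ^ |(-α + 1 / 8)| * (2 ^ d * w ^ (-α + 1 / 8) / u) ^ n := by
            rw [div_pow, mul_pow, ← pow_mul, mul_comm d n]
            ring
  · have h0 := tendsto_pow_div hrate1
    have h1 := h0.const_mul_atTop (Real.rpow_pos_of_pos two_pos (-(α + 1 / 8)))
    refine tendsto_atTop_mono' atTop ?_ h1
    filter_upwards [hKtop.eventually hlow, eventually_ge_atTop 2] with n hn1 hn2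
    have hn2' : (2 : ℝ) ≤ n := by exact_mod_cast hn2
    have hlog : 0 < Real.log n := Real.log_pos (by linarith)
    have hun : 1 ≤ u ^ n := one_le_pow₀ hu1.le
    have hKle : (⌈u ^ n⌉₊ : ℝ) ≤ 2 * u ^ n := by
      have h1 : (⌈u ^ n⌉₊ : ℝ) < u ^ n + 1 := Nat.ceil_lt_add_one (by positivity)
      linarith
    have hK0 : (0 : ℝ) < (⌈u ^ n⌉₊ : ℝ) := lt_of_lt_of_le (by positivity) (Nat.le_ceil (u ^ n))
    have hKe : (2 : ℝ) ^ (-(α + 1 / 8)) * (u ^ (-(α + 1 / 8))) ^ n ≤ tail ν ⌈u ^ n⌉₊ := by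
      calc (2 : ℝ) ^ (-(α + 1 / 8)) * (u ^ (-(α + 1 / 8))) ^ n = (2 * u ^ n) ^ (-(α + 1 / 8)) := by
            rw [Real.mul_rpow (by norm_num) (by positivity), pow_rpow hu0.le]
        _ ≤ (⌈u ^ n⌉₊ : ℝ) ^ (-(α + 1 / 8)) :=
            Real.rpow_le_rpow_of_nonpos hK0 hKle (by linarith)
        _ ≤ tail ν ⌈u ^ n⌉₊ := hn1
    have hlogn : Real.log n ≤ n := Real.log_le_self (by linarith)
    have h3 := tail_nonneg ν ⌈u ^ n⌉₊
    calc 2 ^ (-(α + 1 / 8)) * ((2 ^ d * u ^ (-(α + 1 / 8))) ^ n / (n : ℝ))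
        = 2 ^ (n * d) * (2 ^ (-(α + 1 / 8)) * (u ^ (-(α + 1 / 8))) ^ n) / n := by
          rw [mul_pow, ← pow_mul, mul_comm d n]
          ring
      _ ≤ 2 ^ (n * d) * tail ν ⌈u ^ n⌉₊ / n := by gcongr
      _ ≤ 2 ^ (n * d) * tail ν ⌈u ^ n⌉₊ / Real.log n := by gcongr

end StableMM.Light
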