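import Pool.Agent.Lib.MP_bae357_pr.Base

/-!
# A law with all moments finite which satisfies the growth condition
-/

open Set Topology MeasureTheory ProbabilityTheory Filter
open scoped NNReal ENNReal

namespace StableMM.Light

/-- A law with prescribed tail. -/
lemma exists_pmf_tail {T : ℕ → ℝ} (hT0 : T 0 = 1) (hanti : Antitone T)
    (hlim : Tendsto T atTop (𝓝 0)) :
    ∃ ν : PMF ℕ, (∀ k, ν k = ENNReal.ofReal (T k - T (k + 1))) ∧ ∀ k, tail ν k = T k := by
  have hnn : ∀ k, 0 ≤ T k - T (k + 1) := fun k => sub_nonneg.2 (hanti (Nat.le_succ k))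
  have hsum : HasSum (fun k => T k - T (k + 1)) 1 := by
    rw [hasSum_iff_tendsto_nat_of_nonneg hnn]
    have h1 : Tendsto (fun n => T 0 - T n) atTop (𝓝 (1 - 0)) := by
      rw [hT0]
      exact tendsto_const_nhds.sub hlim
    rw [sub_zero] at h1
    refine h1.congr fun n => ?_
    rw [Finset.sum_range_sub']
  have hprob : HasSum (fun k => ENNReal.ofReal (T k - T (k + 1))) 1 := by
    have h1 := ENNReal.ofReal_tsum_of_nonneg hnn hsum.summable
    rw [hsum.tsum_eq, ENNReal.ofReal_one] at h1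
    rw [h1]
    exact ENNReal.summable.hasSum
  refine ⟨⟨_, hprob⟩, fun k => rfl, fun k => ?_⟩
  set ν : PMF ℕ := ⟨_, hprob⟩ with hν
  have hTk : ∀ k, 0 ≤ T k := fun k => hanti.le_of_tendsto hlim k
  have hcompl : ν.toMeasure (Iio k) = ENNReal.ofReal (1 - T k) := by
    have h1 : (Iio k : Set ℕ) = ((Finset.range k : Finset ℕ) : Set ℕ) := by
      ext m
      simp
    rw [h1, PMF.toMeasure_apply_finset]
    have h2 : ∀ m, ν m = ENNReal.ofReal (T m - T (m + 1)) := fun m => rfl
    simp only [h2]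
    rw [← ENNReal.ofReal_sum_of_nonneg (fun m _ => hnn m), Finset.sum_range_sub', hT0]
  have h3 : ν.toMeasure (Ici k) = ENNReal.ofReal (T k) := by
    have h4 : (Ici k : Set ℕ) = (Iio k)ᶜ := by
      ext m
      simp
    have hT1 : T k ≤ 1 := by
      rw [← hT0]
      exact hanti (Nat.zero_le k)
    rw [h4, prob_compl_eq_one_sub measurableSet_Iio, hcompl, ← ENNReal.ofReal_one,
      ← ENNReal.ofReal_sub _ (by linarith)]
    congr 1
    ring
  unfold tail
  rw [h3, ENNReal.toReal_ofReal (hTk k)]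

/-- The tail `exp(-(log (k/2))^{3/2})`. -/
noncomputable def T (k : ℕ) : ℝ :=
  if k < 2 then 1 else Real.exp (-(Real.log (k / 2) * √(Real.log (k / 2))))

lemma T_of_ge {k : ℕ} (hk : 2 ≤ k) :
    T k = Real.exp (-(Real.log (k / 2) * √(Real.log (k / 2)))) := by
  unfold T
  rw [if_neg (by omega)]

lemma log_half_nonneg {k : ℕ} (hk : 2 ≤ k) : 0 ≤ Real.log ((k : ℝ) / 2) := by
  apply Real.log_nonneg
  have : (2 : ℝ) ≤ k := by exact_mod_cast hk
  linarith

lemma T_le_one (k : ℕ) : T k ≤ 1 := by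
  unfold T
  split_ifs with h
  · exact le_rfl
  · rw [Real.exp_le_one_iff]
    have := log_half_nonneg (not_lt.1 h)
    have : 0 ≤ Real.log ((k : ℝ) / 2) * √(Real.log ((k : ℝ) / 2)) := by positivity
    linarith

lemma T_antitone : Antitone T := by
  intro a b hab
  by_cases ha : a < 2
  · have : T a = 1 := by unfold T; rw [if_pos ha]
    rw [this]
    exact T_le_one b
  · have ha' : 2 ≤ a := not_lt.1 ha
    rw [T_of_ge ha', T_of_ge (ha'.trans hab), Real.exp_le_exp]
    have h0 := log_half_nonneg ha'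
    have ha2 : (2 : ℝ) ≤ a := by exact_mod_cast ha'
    have hab' : (a : ℝ) ≤ b := by exact_mod_cast hab
    have h1 : Real.log ((a : ℝ) / 2) ≤ Real.log ((b : ℝ) / 2) :=
      Real.log_le_log (by positivity) (by linarith)
    have h2 : √(Real.log ((a : ℝ) / 2)) ≤ √(Real.log ((b : ℝ) / 2)) := Real.sqrt_le_sqrt h1
    have h3 := mul_le_mul h1 h2 (Real.sqrt_nonneg _) (h0.trans h1)
    linarith

/-- The tail is smaller than every power. -/
lemma T_small (m : ℕ) : ∀ᶠ k : ℕ in atTop, T k ≤ 1 / (k : ℝ) ^ m := by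
  have htop : Tendsto (fun k : ℕ => √(Real.log ((k : ℝ) / 2))) atTop atTop := by
    refine Real.tendsto_sqrt_atTop.comp (Real.tendsto_log_atTop.comp ?_)
    exact tendsto_natCast_atTop_atTop.atTop_div_const two_pos
  filter_upwards [htop.eventually_ge_atTop (2 * m), eventually_ge_atTop 4] with k hk hk4
  have hk4' : (4 : ℝ) ≤ k := by exact_mod_cast hk4
  have hk0 : (0 : ℝ) < k := by linarith
  rw [T_of_ge (by omega)]
  have h1 : Real.log k ≤ 2 * Real.log ((k : ℝ) / 2) := by
    have h2 : 2 * Real.log ((k : ℝ) / 2) = Real.log (((k : ℝ) / 2) ^ 2) := by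
      rw [Real.log_pow]
      norm_num
    rw [h2]
    refine Real.log_le_log hk0 ?_
    nlinarith
  have h3 : 1 / (k : ℝ) ^ m = Real.exp (-(m * Real.log k)) := by
    rw [Real.exp_neg, Real.exp_nat_mul, Real.exp_log hk0, one_div]
  rw [h3, Real.exp_le_exp]
  have h4 := log_half_nonneg (by omega : 2 ≤ k)
  have h5 : 2 * m * Real.log ((k : ℝ) / 2) ≤
      √(Real.log ((k : ℝ) / 2)) * Real.log ((k : ℝ) / 2) := by gcongr
  have h6 : (m : ℝ) * Real.log k ≤ m * (2 * Real.log ((k : ℝ) / 2)) := by gcongr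
  linarith

lemma T_tendsto : Tendsto T atTop (𝓝 0) := by
  have h1 : Tendsto (fun k : ℕ => 1 / (k : ℝ) ^ 1) atTop (𝓝 0) := by
    simpa using tendsto_one_div_atTop_nhds_zero_nat (𝕜 := ℝ)
  refine squeeze_zero' (Eventually.of_forall fun k => ?_) (T_small 1) h1
  unfold T
  split_ifs
  · norm_num
  · exact (Real.exp_pos _).le

/-- The growth condition for the tail `T`. -/
lemma percTail_T {d : ℕ} (hd : 1 ≤ d) {ν : PMF ℕ} (hν : ∀ k, tail ν k = T k) :
    PercTail d ν := by
  have hd0 : (0 : ℝ) < d := by exact_mod_cast hd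
  have hl2 : (0 : ℝ) < Real.log 2 := Real.log_pos one_lt_two
  set c : ℝ := d * Real.log 2 with hc
  have hc0 : 0 < c := by positivity
  set z : ℕ → ℝ := fun n => ((n : ℝ) * c) ^ ((1 : ℝ) / 3) with hz
  have hz0 : ∀ n, 0 ≤ z n := fun n => by positivity
  have hz3 : ∀ n : ℕ, z n ^ 3 = n * c := by
    intro n
    simp only [hz]
    rw [← Real.rpow_natCast, ← Real.rpow_mul (by positivity)]
    norm_num
  have hzmono : Monotone z := by
    intro a b hab
    simp only [hz]
    refine Real.rpow_le_rpow (by positivity) ?_ (by norm_num)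
    have : (a : ℝ) ≤ b := by exact_mod_cast hab
    gcongr
  have hztop : Tendsto z atTop atTop := by
    simp only [hz]
    refine (tendsto_rpow_atTop (by norm_num)).comp ?_
    exact tendsto_natCast_atTop_atTop.atTop_mul_const hc0
  have hpow : ∀ n : ℕ, (2 : ℝ) ^ (n * d) = Real.exp (z n ^ 3) := by
    intro n
    rw [hz3, hc, ← Real.exp_log (by positivity : (0 : ℝ) < 2 ^ (n * d)), Real.log_pow]
    push_cast
    ring_nf
  have hn : ∀ n : ℕ, (n : ℝ) = z n ^ 3 / c := by
    intro n
    rw [hz3]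
    field_simp
  -- numbers
  set j : ℕ → ℕ := fun n => ⌊2 * Real.exp (z n ^ 2 - z n / 3)⌋₊ with hj
  set K : ℕ → ℕ := fun n => ⌊2 * Real.exp (z n ^ 2 - 1)⌋₊ with hK
  have hjle : ∀ n, (j n : ℝ) ≤ 2 * Real.exp (z n ^ 2 - z n / 3) := fun n =>
    Nat.floor_le (by positivity)
  have hjlt : ∀ n, 2 * Real.exp (z n ^ 2 - z n / 3) < ((j n + 1 : ℕ) : ℝ) := fun n => by
    push_cast
    exact Nat.lt_floor_add_one _
  have hKle : ∀ n, (K n : ℝ) ≤ 2 * Real.exp (z n ^ 2 - 1) := fun n =>
    Nat.floor_le (by positivity)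
  have hKge : ∀ n, 1 ≤ z n → Real.exp (z n ^ 2 - 1) ≤ K n := by
    intro n hn1
    have h1 : 2 * Real.exp (z n ^ 2 - 1) < (K n : ℝ) + 1 := Nat.lt_floor_add_one _
    have h2 : 1 ≤ Real.exp (z n ^ 2 - 1) := Real.one_le_exp (by nlinarith)
    linarith
  have hjge : ∀ n, 1 ≤ z n → Real.exp (z n ^ 2 - z n / 3) ≤ j n := by
    intro n hn1
    have h1 : 2 * Real.exp (z n ^ 2 - z n / 3) < (j n : ℝ) + 1 := Nat.lt_floor_add_one _
    have h2 : 1 ≤ Real.exp (z n ^ 2 - z n / 3) := Real.one_le_exp (by nlinarith)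
    linarith
  have hexp3 : ∀ s : ℝ, 0 < s → Tendsto (fun x : ℝ => Real.exp (s * x) / x ^ 3) atTop atTop := by
    intro s hs
    have h1 := tendsto_exp_mul_div_rpow_atTop 3 s hs
    refine h1.congr' ?_
    filter_upwards [eventually_gt_atTop 0] with x hx
    rw [show (3 : ℝ) = ((3 : ℕ) : ℝ) by norm_num, Real.rpow_natCast]
  refine ⟨j, K, ?_, ?_, ?_, ?_, ?_⟩
  · intro a b hab
    simp only [hK]
    refine Nat.floor_mono ?_
    have h1 := hzmono hab
    have h2 := hz0 a
    have h3 : z a ^ 2 ≤ z b ^ 2 := pow_le_pow_left₀ h2 h1 2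
    gcongr
  · -- `j n / n → ∞`
    have h1 := ((hexp3 (1 / 2) (by norm_num)).comp hztop).const_mul_atTop hc0
    refine tendsto_atTop_mono' atTop ?_ h1
    filter_upwards [hztop.eventually_ge_atTop 1, eventually_ge_atTop 1] with n hn1 hn2
    have hn2' : (0 : ℝ) < n := by exact_mod_cast hn2
    have hzpos : 0 < z n := by linarith
    simp only [Function.comp]
    have h2 : Real.exp (1 / 2 * z n) ≤ j n := by
      refine le_trans (Real.exp_le_exp.2 ?_) (hjge n hn1)
      nlinarith
    rw [hn n]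
    calc c * (Real.exp (1 / 2 * z n) / z n ^ 3) ≤ c * (j n / z n ^ 3) := by gcongr
      _ = j n / (z n ^ 3 / c) := by field_simp
  · -- `K n / (n j n) → ∞`
    have h1 := ((hexp3 (1 / 3) (by norm_num)).comp hztop).const_mul_atTop
      (by positivity : 0 < c * Real.exp (-1) / 2)
    refine tendsto_atTop_mono' atTop ?_ h1
    filter_upwards [hztop.eventually_ge_atTop 1, eventually_ge_atTop 1] with n hn1 hn2
    have hn2' : (0 : ℝ) < n := by exact_mod_cast hn2
    have hzpos : 0 < z n := by linarith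
    simp only [Function.comp]
    have hjpos : 0 < (j n : ℝ) := lt_of_lt_of_le (Real.exp_pos _) (hjge n hn1)
    have e1 : Real.exp (z n ^ 2 - 1) = Real.exp (z n ^ 2 - z n / 3) * Real.exp (-1) *
        Real.exp (1 / 3 * z n) := by
      rw [← Real.exp_add, ← Real.exp_add]
      congr 1
      ring
    rw [hn n]
    calc c * Real.exp (-1) / 2 * (Real.exp (1 / 3 * z n) / z n ^ 3)
        = Real.exp (z n ^ 2 - 1) / (z n ^ 3 / c * (2 * Real.exp (z n ^ 2 - z n / 3))) := by
          rw [e1]
          field_simp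
      _ ≤ K n / (z n ^ 3 / c * (2 * Real.exp (z n ^ 2 - z n / 3))) := by
          have := hKge n hn1
          gcongr
      _ ≤ K n / (z n ^ 3 / c * j n) := by
          have := hjle n
          gcongr
  · -- few points of high degree
    have h1 : Tendsto (fun n : ℕ => Real.exp (1 - z n / 3)) atTop (𝓝 0) := by
      refine Real.tendsto_exp_atBot.comp ?_
      have h2 : Tendsto (fun n => z n / 3) atTop atTop := hztop.atTop_div_const (by norm_num)
      exact tendsto_const_nhds.add_atBot (tendsto_neg_atTop_atBot.comp h2)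
    refine squeeze_zero' (Eventually.of_forall fun n => ?_) ?_ h1
    · have := tail_nonneg ν (j n + 1)
      positivity
    · filter_upwards [hztop.eventually_ge_atTop 1] with n hn1
      have hKpos : 0 < (K n : ℝ) := lt_of_lt_of_le (Real.exp_pos _) (hKge n hn1)
      have hx0 : 0 ≤ z n ^ 2 - z n / 3 := by nlinarith
      have h2 : z n ^ 2 - z n / 3 ≤ Real.log (((j n + 1 : ℕ) : ℝ) / 2) := by
        rw [Real.le_log_iff_exp_le (by positivity)]
        have := hjlt n
        linarith
      have h3 : z n - 1 / 5 ≤ √(Real.log (((j n + 1 : ℕ) : ℝ) / 2)) := by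
        refine le_trans ?_ (Real.sqrt_le_sqrt h2)
        apply Real.le_sqrt_of_sq_le
        nlinarith
      have h4 : z n ^ 3 - 8 / 15 * z n ^ 2 ≤
          Real.log (((j n + 1 : ℕ) : ℝ) / 2) * √(Real.log (((j n + 1 : ℕ) : ℝ) / 2)) := by
        have h5 := mul_le_mul h2 h3 (by linarith) (hx0.trans h2)
        have h6 : (z n ^ 2 - z n / 3) * (z n - 1 / 5) =
            z n ^ 3 - 8 / 15 * z n ^ 2 + z n / 15 := by ring
        rw [h6] at h5
        linarith
      have hj2 : 2 ≤ j n + 1 := by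
        have h7 : 1 ≤ Real.exp (z n ^ 2 - z n / 3) := Real.one_le_exp hx0
        have h8 : (1 : ℝ) ≤ j n := h7.trans (hjge n hn1)
        have : 1 ≤ j n := by exact_mod_cast h8
        omega
      rw [hν, T_of_ge hj2, hpow, ← Real.exp_add, div_le_iff₀ hKpos]
      calc Real.exp (z n ^ 3 + -(Real.log (((j n + 1 : ℕ) : ℝ) / 2) *
            √(Real.log (((j n + 1 : ℕ) : ℝ) / 2))))
          ≤ Real.exp (8 / 15 * z n ^ 2) := Real.exp_le_exp.2 (by linarith)
        _ ≤ Real.exp ((1 - z n / 3) + (z n ^ 2 - 1)) := Real.exp_le_exp.2 (by nlinarith)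
        _ = Real.exp (1 - z n / 3) * Real.exp (z n ^ 2 - 1) := Real.exp_add _ _
        _ ≤ Real.exp (1 - z n / 3) * K n := by
            have := hKge n hn1
            gcongr
  · -- there are points of high degree
    have h1 := ((hexp3 1 one_pos).comp hztop).const_mul_atTop hc0
    refine tendsto_atTop_mono' atTop ?_ h1
    filter_upwards [hztop.eventually_ge_atTop 2, eventually_ge_atTop 2] with n hn1 hn2
    have hn2' : (2 : ℝ) ≤ n := by exact_mod_cast hn2
    have hlog : 0 < Real.log n := Real.log_pos (by linarith)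
    have hzpos : 0 < z n := by linarith
    simp only [Function.comp]
    have hK2 : 2 ≤ K n := by
      have h2 : (2 : ℝ) ≤ Real.exp (z n ^ 2 - 1) := by
        have := Real.add_one_le_exp (z n ^ 2 - 1)
        nlinarith
      have h3 : (2 : ℝ) ≤ K n := h2.trans (hKge n (by linarith))
      exact_mod_cast h3
    have hK2' : (2 : ℝ) ≤ K n := by exact_mod_cast hK2
    have h3 : Real.log ((K n : ℝ) / 2) ≤ z n ^ 2 - 1 := by
      rw [Real.log_le_iff_le_exp (by linarith)]
      have := hKle n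
      linarith
    have h4 : √(Real.log ((K n : ℝ) / 2)) ≤ z n := by
      rw [Real.sqrt_le_left hzpos.le]
      linarith
    have h5 : Real.log ((K n : ℝ) / 2) * √(Real.log ((K n : ℝ) / 2)) ≤ z n ^ 3 - z n := by
      have h6 := mul_le_mul h3 h4 (Real.sqrt_nonneg _) (by nlinarith)
      have h7 : (z n ^ 2 - 1) * z n = z n ^ 3 - z n := by ring
      rwa [h7] at h6
    have h8 : Real.exp (z n) ≤ 2 ^ (n * d) * tail ν (K n) := by
      rw [hν, T_of_ge hK2, hpow, ← Real.exp_add, Real.exp_le_exp]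
      linarith
    have hlogn : Real.log n ≤ n := Real.log_le_self (by linarith)
    calc c * (Real.exp (1 * z n) / z n ^ 3) = Real.exp (z n) / n := by
          rw [one_mul, hn n]
          field_simp
      _ ≤ Real.exp (z n) / Real.log n := by gcongr
      _ ≤ 2 ^ (n * d) * tail ν (K n) / Real.log n := by gcongr

/-- All moments of the law `ν` are finite. -/
def AllMoments (ν : PMF ℕ) : Prop := ∀ m : ℕ, ∑' k : ℕ, (k : ℝ≥0∞) ^ m * ν k < ⊤

/-- There is a law on `{2, 3, …}` with all moments finite which satisfies the growth condition in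
every dimension. -/
theorem exists_law : ∃ ν : PMF ℕ, ν 0 = 0 ∧ ν 1 = 0 ∧ AllMoments ν ∧
    ∀ d : ℕ, 1 ≤ d → PercTail d ν := by
  obtain ⟨ν, hν1, hν2⟩ := exists_pmf_tail (T := T) (by simp [T]) T_antitone T_tendsto
  have hT2 : T 2 = 1 := by
    rw [T_of_ge le_rfl]
    simp
  refine ⟨ν, ?_, ?_, ?_, fun d hd => percTail_T hd hν2⟩
  · rw [hν1]
    simp [T]
  · rw [hν1, hT2]
    simp [T]
  · intro m
    obtain ⟨k0, hk0⟩ := eventually_atTop.1 (T_small (m + 2))
    have hle : ∀ k : ℕ, (k : ℝ≥0∞) ^ m * ν k ≤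
        ENNReal.ofReal ((if k < k0 + 1 then (k : ℝ) ^ m else 0) + 1 / (k : ℝ) ^ 2) := by
      intro k
      have e1 : (k : ℝ≥0∞) ^ m = ENNReal.ofReal ((k : ℝ) ^ m) := by
        rw [ENNReal.ofReal_pow (by positivity), ENNReal.ofReal_natCast]
      rw [e1, hν1, ← ENNReal.ofReal_mul (by positivity)]
      refine ENNReal.ofReal_le_ofReal ?_
      have hTnn : 0 ≤ T (k + 1) := by
        unfold T
        split_ifs
        · norm_num
        · exact (Real.exp_pos _).le
      split_ifs with hk
      · have h1 : T k - T (k + 1) ≤ 1 := by linarith [T_le_one k]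
        have h2 : (k : ℝ) ^ m * (T k - T (k + 1)) ≤ (k : ℝ) ^ m * 1 := by gcongr
        have h3 : (0 : ℝ) ≤ 1 / (k : ℝ) ^ 2 := by positivity
        linarith
      · have hkpos : (0 : ℝ) < k := by
          have : 0 < k := by omega
          exact_mod_cast this
        have h1 := hk0 k (by omega)
        calc (k : ℝ) ^ m * (T k - T (k + 1)) ≤ (k : ℝ) ^ m * (1 / (k : ℝ) ^ (m + 2)) := by
              gcongr
              linarith
          _ = 0 + 1 / (k : ℝ) ^ 2 := by
              rw [pow_add]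
              field_simp
              ring
    refine lt_of_le_of_lt (ENNReal.tsum_le_tsum hle) ?_
    have hs : Summable (fun k : ℕ => (if k < k0 + 1 then (k : ℝ) ^ m else 0) + 1 / (k : ℝ) ^ 2) := by
      refine Summable.add ?_ (Real.summable_one_div_nat_pow.2 (by norm_num))
      refine summable_of_ne_finset_zero (s := Finset.range (k0 + 1)) fun k hk => ?_
      rw [Finset.mem_range] at hk
      rw [if_neg hk]
    rw [← ENNReal.ofReal_tsum_of_nonneg (fun k => by positivity) hs]
    exact ENNReal.ofReal_lt_top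

end StableMM.Light
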